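import Mathlib
import Pool.Agent.X70.MGraph3

namespace Pool.Agent.Results.MP_593b6a_co.MultisetHam

/-- `H` is Hamiltonian: all its vertices can be listed, each exactly once, in a cyclic order
of some length `N ≥ 3` in which cyclically consecutive vertices are adjacent. -/
def IsHam {V : Type} (H : SimpleGraph V) : Prop :=
  ∃ (N : ℕ) (f : ZMod N → V), 3 ≤ N ∧ Function.Bijective f ∧ ∀ i, H.Adj (f i) (f (i + 1))

/-- The `k`-multiset graph of `H`: the vertices are the multisets of `k` vertices of `H`
(the type `Sym V k`), and `A`, `B` are adjacent when `A = C + {u}` and `B = C + {v}` for some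
multiset `C` and some edge `uv` of `H`. -/
def multisetGraph {V : Type} (H : SimpleGraph V) (k : ℕ) : SimpleGraph (Sym V k) where
  Adj A B := ∃ u v, H.Adj u v ∧ ∃ C : Multiset V, (A : Multiset V) = u ::ₘ C ∧
    (B : Multiset V) = v ::ₘ C
  symm := by
    constructor
    rintro A B ⟨u, v, h, C, h1, h2⟩
    exact ⟨v, u, h.symm, C, h2, h1⟩
  loopless := by
    constructor
    rintro A ⟨u, v, h, C, h1, h2⟩
    rw [h1] at h2
    exact h.ne (by simpa using h2)

open Pool.Agent.X70.MG

/-- the host graph -/
def host (n : ℕ) : SimpleGraph (Fin n) where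
  Adj a b := G a.val b.val
  symm := ⟨fun _ _ h => Pool.Agent.X70.MG.G.symm h⟩
  loopless := by
    constructor
    rintro a h
    rcases h with (h | h | h) | (h | h | h) <;> omega

theorem host_not_ham (n : ℕ) (hn : 6 ≤ n) : ¬ IsHam (host n) := by
  rintro ⟨N, f, hN, hf, hadj⟩
  have : NeZero N := ⟨by omega⟩
  have hcard : N = n := by
    have := Fintype.card_of_bijective hf
    rwa [ZMod.card, Fintype.card_fin] at this
  obtain ⟨i, hi⟩ := hf.2 ⟨2, by omega⟩
  obtain ⟨j, hj⟩ := hf.2 ⟨3, by omega⟩
  have hne : ∀ i : ZMod N, f (i+1) ≠ f (i-1) := by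
    intro i h
    have h := hf.1 h
    have h2 : ((2 : ℕ) : ZMod N) = 0 := by
      have : (2 : ZMod N) = (i+1) - (i-1) := by ring
      push_cast
      rw [this, h, sub_self]
    rw [ZMod.natCast_eq_zero_iff] at h2
    have := Nat.le_of_dvd (by norm_num) h2
    omega
  have h1 : ∀ i : ZMod N, (f i).val = 2 ∨ (f i).val = 3 →
      ((f (i+1)).val = 0 ∨ (f (i+1)).val = 1) ∧ ((f (i-1)).val = 0 ∨ (f (i-1)).val = 1) := by
    intro i hi
    have ha : G (f i).val (f (i+1)).val := hadj i
    have hb : G (f (i-1)).val (f i).val := by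
      have := hadj (i-1)
      rwa [sub_add_cancel] at this
    constructor
    · rcases ha with (h | h | h) | (h | h | h) <;> omega
    · rcases hb with (h | h | h) | (h | h | h) <;> omega
  have hi' := h1 i (Or.inl (by rw [hi]))
  have hj' := h1 j (Or.inr (by rw [hj]))
  have hni : (f (i+1)).val ≠ (f (i-1)).val := fun h => hne i (Fin.ext h)
  have hnj : (f (j+1)).val ≠ (f (j-1)).val := fun h => hne j (Fin.ext h)
  have hij : i ≠ j := by
    rintro rfl
    rw [hi] at hj
    have := congrArg Fin.val hj
    simp at this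
  have hd1 : (f (i+1)).val ≠ (f (j+1)).val := fun h =>
    hij (add_right_cancel (hf.1 (Fin.ext h)))
  have e1 : f (i+1) = f (j-1) := Fin.ext (by omega)
  have e2 : f (i-1) = f (j+1) := Fin.ext (by omega)
  have e1 := hf.1 e1
  have e2 := hf.1 e2
  have h4 : ((4 : ℕ) : ZMod N) = 0 := by
    have : ((4 : ℕ) : ZMod N) = ((i+1) - (i-1)) + ((j+1) - (j-1)) := by push_cast; ring
    rw [this, e1, e2]; ring
  rw [ZMod.natCast_eq_zero_iff] at h4
  have := Nat.le_of_dvd (by norm_num) h4
  omega

theorem ham_of_list {n k : ℕ} {L : List (Multiset ℕ)} (h : HC n k L) (h3 : 3 ≤ L.length) :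
    IsHam (multisetGraph (host n) k) := by
  have : NeZero L.length := ⟨by omega⟩
  have ex : ∀ i : ZMod L.length, ∃ s : Sym (Fin n) k,
      (s : Multiset (Fin n)).map Fin.val = L[i.val]'(ZMod.val_lt i) := by
    intro i
    have hm := (h.1.2 _).1 (List.getElem_mem (ZMod.val_lt i))
    refine ⟨⟨(L[i.val]'(ZMod.val_lt i)).pmap (fun a h => (⟨a, h⟩ : Fin n)) hm.2, ?_⟩, ?_⟩
    · rw [Multiset.card_pmap]; exact hm.1
    · show Multiset.map Fin.val (Multiset.pmap _ _ _) = _
      rw [Multiset.map_pmap, Multiset.pmap_eq_map (p := fun a => a < n) (f := fun a => a),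
        Multiset.map_id']
  choose f hf using ex
  have inj : Function.Injective (fun s : Multiset (Fin n) => s.map Fin.val) :=
    Multiset.map_injective Fin.val_injective
  refine ⟨L.length, f, h3, ⟨?_, ?_⟩, ?_⟩
  · intro i j hij
    have : L[i.val]'(ZMod.val_lt i) = L[j.val]'(ZMod.val_lt j) := by rw [← hf i, ← hf j, hij]
    rw [h.1.1.getElem_inj_iff] at this
    exact ZMod.val_injective _ this
  · intro s
    have hs : (s : Multiset (Fin n)).map Fin.val ∈ L := by
      rw [h.1.2]
      refine ⟨by simp, ?_⟩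
      intro a ha
      rw [Multiset.mem_map] at ha
      obtain ⟨b, _, rfl⟩ := ha
      exact b.2
    obtain ⟨m, hm, hm2⟩ := List.getElem_of_mem hs
    refine ⟨(m : ZMod L.length), ?_⟩
    apply Sym.coe_injective
    apply inj
    show Multiset.map Fin.val _ = Multiset.map Fin.val _
    rw [hf, ← hm2]
    congr 1
    exact ZMod.val_cast_of_lt hm
  · intro i
    have hadj : ∀ (m : ℕ) (hm : m < L.length),
        TAdj (L[m]) (L[(m+1) % L.length]'(Nat.mod_lt _ (by omega))) := by
      obtain ⟨a, l, rfl⟩ : ∃ a l, L = a :: l := by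
        cases L with
        | nil => simp at h3
        | cons a l => exact ⟨a, l, rfl⟩
      have hc := h.2
      rw [cyc_cons, Ch, List.isChain_iff_getElem] at hc
      intro m hm
      have h1 := hc m (by simp at hm ⊢; omega)
      have e1 : (a :: (l ++ [a]))[m]'(by simp at hm ⊢; omega) = (a :: l)[m] := by
        rw [← List.getElem_append_left (bs := [a]) hm]
        rfl
      rw [e1] at h1
      by_cases hm2 : m + 1 < (a :: l).length
      · have e2 : (a :: (l ++ [a]))[m+1]'(by simp at hm2 ⊢; omega) = (a :: l)[m+1] := by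
          rw [← List.getElem_append_left (bs := [a]) hm2]
          rfl
        rw [e2] at h1
        simp only [Nat.mod_eq_of_lt hm2]
        exact h1
      · have hm3 : m + 1 = (a :: l).length := by omega
        have hm4 : m = l.length := by simpa using hm3
        have e2 : (a :: (l ++ [a]))[m+1]'(by simp; omega) = a := by
          subst hm4
          simp
        rw [e2] at h1
        simp only [hm3, Nat.mod_self]
        exact h1
    have hv : (i+1).val = (i.val + 1) % L.length := by
      rw [ZMod.val_add, ZMod.val_one_eq_one_mod, Nat.add_mod_mod]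
    have := hadj i.val (ZMod.val_lt i)
    simp only [← hv] at this
    rw [← hf i, ← hf (i+1)] at this
    obtain ⟨u, v, C, hG, h1, h2⟩ := this
    rw [← Multiset.map_eq_cons] at h1 h2
    obtain ⟨u', hu', rfl, h1⟩ := h1
    obtain ⟨v', hv', rfl, h2⟩ := h2
    refine ⟨u', v', hG, (f i : Multiset (Fin n)).erase u', (Multiset.cons_erase hu').symm, ?_⟩
    have : (f i : Multiset (Fin n)).erase u' = (f (i+1) : Multiset (Fin n)).erase v' :=
      inj (h1.trans h2.symm)
    rw [this]
    exact (Multiset.cons_erase hv').symm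

/-- For every `k ≥ 2` and every `n ≥ 6` there is a non-Hamiltonian graph on `n` vertices whose
`k`-multiset graph is Hamiltonian. -/
theorem result (k n : ℕ) (hk : 2 ≤ k) (hn : 6 ≤ n) :
    ∃ H : SimpleGraph (Fin n), ¬ IsHam H ∧ IsHam (multisetGraph H k) := by
  refine ⟨host n, host_not_ham n hn, ?_⟩
  obtain ⟨j, rfl⟩ := Nat.exists_eq_add_of_le hn
  obtain ⟨t, rfl⟩ := Nat.exists_eq_add_of_le hk
  obtain ⟨ρ, hρ⟩ := (inv_all j).2 t
  rw [Nat.add_comm 6 j, Nat.add_comm 2 t]
  exact ham_of_list hρ (by simp)

end Pool.Agent.Results.MP_593b6a_co.MultisetHam
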